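import Pool.Agent.H26.Sym3

set_option autoImplicit false

open H26.Sym3

theorem Pool.Agent.Results.MP_f8f7ac_co.NoSymmetric.result :
    ∃ (n : ℕ) (I : Fin n → Fin n → Prop), IsConfig I ∧
      PointTrans I ∧ LineTrans I ∧ FlagTrans I ∧ (∃ x y, IsReal I x y) ∧
      ∀ x y, IsReal I x y → ∀ s : Pl ≃ᵢ Pl, IsSymm x y s → s = IsometryEquiv.refl Pl :=
  ⟨13, I13, config, pointTrans, lineTrans, flagTrans, exists_real, no_symm⟩
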